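import Mathlib

set_option autoImplicit false
universe u

namespace Pool.Agent.Results.MP_abd870_al.NoEmbedding

open Set Filter Topology

/-! The group `G` of increasing bijections of the line commuting with `x ↦ x + 1`, with the topology
of uniform convergence, does not embed in the multiplicative semigroup of a topological ring.

Outline. Let `f : G → R` be a topological embedding and `e = f 1`. Given small neighbourhoods, take
`θ = 1 / k` small, `b` the translation by `θ` and `z = ∑_{j < k} f (b ^ j)`. The element `b` is a product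
of eight elements commuting with `b`, each having a fixed point. By the averaging trick (conjugate by
`(1 / n) ∑_{i < n} A ^ i`) each of these eight elements `A` is a conjugate `w q w⁻¹` with `w` commuting
with `b`, `w` moving points by at most `θ`, and `q` as close to `1` as we like. Since `z` is a fixed
element of the ring, `z (f q - e)` is as small as we like, hence so is `z (f A - e) = f w (z (f q - e)) f w⁻¹`
uniformly, and telescoping over the eight factors, `z (f b - e) = f (b ^ k) - e` is small. But `b ^ k` is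
the translation by `1`, which is not close to the identity: a contradiction. -/

/-- Increasing bijections of the line that commute with translation by `θ`. -/
def HZ (θ : ℝ) : Subgroup (ℝ ≃o ℝ) where
  carrier := {f | ∀ x, f (x + θ) = f x + θ}
  mul_mem' := by
    intro f g hf hg x
    simp only [Set.mem_ofPred_eq] at hf hg
    rw [RelIso.mul_apply, RelIso.mul_apply, hg, hf]
  one_mem' := by intro x; rfl
  inv_mem' := by
    intro f hf x
    apply f.injective
    rw [RelIso.apply_inv_self, hf, RelIso.apply_inv_self]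

lemma mem_HZ {θ : ℝ} {f : ℝ ≃o ℝ} : f ∈ HZ θ ↔ ∀ x, f (x + θ) = f x + θ := Iff.rfl

/-- integer multiples of the period -/
lemma HZ_int {θ : ℝ} {f : ℝ ≃o ℝ} (hf : f ∈ HZ θ) (m : ℤ) (x : ℝ) :
    f (x + m * θ) = f x + m * θ := by
  have hp : Function.Periodic (fun x => f x - x) θ := by
    intro x
    change f (x + θ) - (x + θ) = f x - x
    rw [hf x]; ring
  have := hp.int_mul m x
  linarith

/-- a strictly increasing continuous map at bounded distance from the identity is an
order automorphism -/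
noncomputable def mkIso (f : ℝ → ℝ) (hm : StrictMono f) (hc : Continuous f) (c : ℝ)
    (hd : ∀ x, |f x - x| ≤ c) : ℝ ≃o ℝ :=
  hm.orderIsoOfSurjective f (by
    intro y
    have h1 := abs_le.1 (hd (y - c))
    have h2 := abs_le.1 (hd (y + c))
    have hc0 : 0 ≤ c := le_trans (abs_nonneg _) (hd 0)
    have := intermediate_value_Icc (show y - c ≤ y + c by linarith) hc.continuousOn
    obtain ⟨x, _, hx⟩ := this (show y ∈ Icc (f (y - c)) (f (y + c)) from
      ⟨by linarith [h1.2], by linarith [h2.1]⟩)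
    exact ⟨x, hx⟩)

lemma mkIso_apply (f : ℝ → ℝ) (hm : StrictMono f) (hc : Continuous f) (c : ℝ)
    (hd : ∀ x, |f x - x| ≤ c) (x : ℝ) : mkIso f hm hc c hd x = f x := rfl

/-- maps with a fixed point move points by at most the period -/
lemma fix_disp {θ : ℝ} (hθ : 0 < θ) {A : ℝ ≃o ℝ} (hA : A ∈ HZ θ) {p : ℝ} (hp : A p = p) (x : ℝ) :
    |A x - x| ≤ θ := by
  set m : ℤ := ⌊(x - p) / θ⌋ with hm
  have h1 : (m : ℝ) ≤ (x - p) / θ := Int.floor_le _
  have h2 : (x - p) / θ < m + 1 := Int.lt_floor_add_one _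
  rw [le_div_iff₀ hθ] at h1
  rw [div_lt_iff₀ hθ] at h2
  have e1 : A (p + m * θ) = p + m * θ := by rw [HZ_int hA, hp]
  have e2 : A (p + (m + 1 : ℤ) * θ) = p + (m + 1 : ℤ) * θ := by rw [HZ_int hA, hp]
  have m1 : A (p + m * θ) ≤ A x := A.monotone (by linarith)
  have m2 : A x ≤ A (p + (m + 1 : ℤ) * θ) := A.monotone (by push_cast; linarith)
  rw [e1] at m1
  rw [e2] at m2
  push_cast at m2
  rw [abs_le]
  constructor <;> linarith

lemma pow_fix {A : ℝ ≃o ℝ} {p : ℝ} (hp : A p = p) (n : ℕ) : (A ^ n) p = p := by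
  induction n with
  | zero => rfl
  | succ n ih => rw [pow_succ, RelIso.mul_apply, hp, ih]

/-- The averaging trick: an element with a fixed point is conjugate, by an element moving points by at
most the period, to elements arbitrarily close to the identity. -/
lemma contract {θ : ℝ} (hθ : 0 < θ) {A : ℝ ≃o ℝ} (hA : A ∈ HZ θ) {p : ℝ} (hp : A p = p)
    {δ : ℝ} (hδ : 0 < δ) :
    ∃ h ∈ HZ θ, (∀ x, |h x - x| ≤ θ) ∧ ∀ x, |(h * A * h⁻¹) x - x| < δ := by
  obtain ⟨n, hn⟩ := exists_nat_gt (θ / δ)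
  have hn0 : (0 : ℝ) < n := lt_trans (div_pos hθ hδ) hn
  have hnθ : θ / n < δ := by
    rw [div_lt_iff₀ hδ] at hn
    rw [div_lt_iff₀ hn0]
    linarith
  have hpow : ∀ i : ℕ, A ^ i ∈ HZ θ := fun i => (HZ θ).pow_mem hA i
  have hdisp : ∀ (i : ℕ) (x : ℝ), |(A ^ i) x - x| ≤ θ := fun i x =>
    fix_disp hθ (hpow i) (pow_fix hp i) x
  let F : ℝ → ℝ := fun x => (∑ i ∈ Finset.range n, (A ^ i) x) / n
  have hFm : StrictMono F := by
    intro x y hxy
    have : ∑ i ∈ Finset.range n, (A ^ i) x < ∑ i ∈ Finset.range n, (A ^ i) y := by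
      apply Finset.sum_lt_sum_of_nonempty
      · rw [Finset.nonempty_range_iff]
        intro h
        rw [h] at hn0
        simp at hn0
      · intro i _
        exact (A ^ i).strictMono hxy
    exact div_lt_div_of_pos_right this hn0
  have hFc : Continuous F := by
    apply Continuous.div_const
    exact continuous_finsetSum _ (fun i _ => (A ^ i).continuous)
  have hFd : ∀ x, |F x - x| ≤ θ := by
    intro x
    have : F x - x = (∑ i ∈ Finset.range n, ((A ^ i) x - x)) / n := by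
      simp only [F]
      rw [Finset.sum_sub_distrib]
      simp
      field_simp
    rw [this, abs_div, abs_of_pos hn0, div_le_iff₀ hn0]
    calc |∑ i ∈ Finset.range n, ((A ^ i) x - x)| ≤ ∑ i ∈ Finset.range n, |(A ^ i) x - x| :=
          Finset.abs_sum_le_sum_abs _ _
      _ ≤ ∑ i ∈ Finset.range n, θ := Finset.sum_le_sum (fun i _ => hdisp i x)
      _ = θ * n := by simp [mul_comm]
  refine ⟨mkIso F hFm hFc θ hFd, ?_, ?_, ?_⟩
  · intro x
    rw [mkIso_apply, mkIso_apply]
    simp only [F]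
    have : ∀ i ∈ Finset.range n, (A ^ i) (x + θ) = (A ^ i) x + θ := fun i _ => hpow i x
    rw [Finset.sum_congr rfl this, Finset.sum_add_distrib]
    simp
    field_simp
  · intro x
    rw [mkIso_apply]
    exact hFd x
  · intro x
    set h := mkIso F hFm hFc θ hFd with hh
    set y := h⁻¹ x with hy
    have hxy : x = h y := by rw [hy, RelIso.apply_inv_self]
    have e1 : (h * A * h⁻¹) x = h (A y) := by
      rw [RelIso.mul_apply, RelIso.mul_apply]
    rw [e1, hxy, hh, mkIso_apply, mkIso_apply]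
    have e2 : F (A y) - F y = ((A ^ n) y - y) / n := by
      simp only [F]
      rw [← sub_div, ← Finset.sum_sub_distrib]
      have : ∀ i ∈ Finset.range n, (A ^ i) (A y) - (A ^ i) y = (A ^ (i+1)) y - (A ^ i) y := by
        intro i _
        rw [pow_succ, RelIso.mul_apply]
      rw [Finset.sum_congr rfl this, Finset.sum_range_sub (fun i => (A ^ i) y)]
      simp
    rw [e2, abs_div, abs_of_pos hn0]
    calc |(A ^ n) y - y| / n ≤ θ / n := div_le_div_of_nonneg_right (hdisp n y) hn0.le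
      _ < δ := hnθ

/-- translation by `t` -/
noncomputable def T (t : ℝ) : ℝ ≃o ℝ :=
  mkIso (fun x => x + t) (fun x y h => by simpa using h) (by fun_prop) |t|
    (fun x => by simp)

lemma T_apply (t x : ℝ) : T t x = x + t := rfl

/-- an explicit map with `0 ↦ θ/4` and fixed point `θ/2` -/
noncomputable def Aθ (θ : ℝ) (hθ : 0 < θ) : ℝ ≃o ℝ :=
  mkIso (fun x => x + θ / 8 * (1 + Real.cos (2 * Real.pi * x / θ)))
    (by
      intro x y hxy
      have h1 := Real.abs_cos_sub_cos_le (2 * Real.pi * x / θ) (2 * Real.pi * y / θ)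
      have h2 : 2 * Real.pi * x / θ - 2 * Real.pi * y / θ = 2 * Real.pi * (x - y) / θ := by ring
      have h3 : |2 * Real.pi * (x - y) / θ| = 2 * Real.pi * (y - x) / θ := by
        rw [abs_div, abs_mul, abs_of_pos hθ, abs_of_pos (by positivity : 0 < 2 * Real.pi),
          abs_sub_comm, abs_of_pos (by linarith : 0 < y - x)]
      rw [h2, h3] at h1
      have h4 := (abs_le.1 h1).2
      have h5 : θ / 8 * (Real.cos (2 * Real.pi * x / θ) - Real.cos (2 * Real.pi * y / θ))
          ≤ θ / 8 * (2 * Real.pi * (y - x) / θ) :=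
        mul_le_mul_of_nonneg_left h4 (by positivity)
      have h6 : θ / 8 * (2 * Real.pi * (y - x) / θ) = Real.pi / 4 * (y - x) := by
        field_simp
        ring
      have h7 : Real.pi / 4 * (y - x) < 1 * (y - x) := by
        apply mul_lt_mul_of_pos_right _ (by linarith)
        linarith [Real.pi_lt_four]
      simp only
      nlinarith)
    (by fun_prop) (θ / 4)
    (by
      intro x
      have h1 := Real.cos_le_one (2 * Real.pi * x / θ)
      have h2 := Real.neg_one_le_cos (2 * Real.pi * x / θ)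
      rw [abs_le]
      constructor <;> nlinarith)

lemma Aθ_apply (θ : ℝ) (hθ : 0 < θ) (x : ℝ) :
    Aθ θ hθ x = x + θ / 8 * (1 + Real.cos (2 * Real.pi * x / θ)) := rfl

lemma Aθ_mem (θ : ℝ) (hθ : 0 < θ) : Aθ θ hθ ∈ HZ θ := by
  intro x
  rw [Aθ_apply, Aθ_apply]
  have : 2 * Real.pi * (x + θ) / θ = 2 * Real.pi * x / θ + 2 * Real.pi := by
    field_simp
  rw [this, Real.cos_add_two_pi]
  ring

lemma Aθ_fix (θ : ℝ) (hθ : 0 < θ) : Aθ θ hθ (θ / 2) = θ / 2 := by
  rw [Aθ_apply]
  have : 2 * Real.pi * (θ / 2) / θ = Real.pi := by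
    field_simp
  rw [this, Real.cos_pi]
  ring

lemma Aθ_zero (θ : ℝ) (hθ : 0 < θ) : Aθ θ hθ 0 = θ / 4 := by
  rw [Aθ_apply]
  simp
  ring

/-- the companion map, with fixed point `0` -/
noncomputable def Cθ (θ : ℝ) (hθ : 0 < θ) : ℝ ≃o ℝ := (Aθ θ hθ)⁻¹ * T (θ / 4)

lemma T_mem (θ t : ℝ) : T t ∈ HZ θ := by
  intro x
  rw [T_apply, T_apply]
  ring

lemma Cθ_mem (θ : ℝ) (hθ : 0 < θ) : Cθ θ hθ ∈ HZ θ :=
  (HZ θ).mul_mem ((HZ θ).inv_mem (Aθ_mem θ hθ)) (T_mem θ _)

lemma Cθ_fix (θ : ℝ) (hθ : 0 < θ) : Cθ θ hθ 0 = 0 := by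
  apply (Aθ θ hθ).injective
  rw [Cθ, RelIso.mul_apply, RelIso.apply_inv_self, T_apply, Aθ_zero]
  ring

lemma AC_eq (θ : ℝ) (hθ : 0 < θ) : Aθ θ hθ * Cθ θ hθ = T (θ / 4) := by
  rw [Cθ, mul_inv_cancel_left]

lemma T_mul (s t : ℝ) : T s * T t = T (s + t) := by
  ext x
  rw [RelIso.mul_apply, T_apply, T_apply, T_apply]
  ring

lemma T_pow (t : ℝ) (n : ℕ) : (T t) ^ n = T (n * t) := by
  induction n with
  | zero => ext x; simp [T_apply]
  | succ n ih =>
    rw [pow_succ, ih, T_mul]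
    congr 1
    push_cast
    ring

/-- The group. -/
abbrev G : Type := HZ 1

/-- neighbourhoods of the identity -/
def U (ε : ℝ) : Set G := {g | ∀ x : ℝ, |g.1 x - x| < ε}

lemma unifCont (g : G) {ε : ℝ} (hε : 0 < ε) : ∃ δ > 0, ∀ x y : ℝ, |x - y| < δ → |g.1 x - g.1 y| < ε := by
  have huc : UniformContinuousOn g.1 (Icc (-1 : ℝ) 2) :=
    isCompact_Icc.uniformContinuousOn_of_continuous g.1.continuous.continuousOn
  rw [Metric.uniformContinuousOn_iff] at huc
  obtain ⟨δ, hδ, h⟩ := huc ε hε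
  refine ⟨min δ 1, lt_min hδ one_pos, ?_⟩
  intro x y hxy
  have hxy1 := abs_lt.1 (lt_of_lt_of_le hxy (min_le_right _ _))
  have hxy2 := lt_of_lt_of_le hxy (min_le_left _ _)
  set m : ℤ := ⌊x⌋ with hm
  have h1 : (m : ℝ) ≤ x := Int.floor_le _
  have h2 : x < m + 1 := Int.lt_floor_add_one _
  have ex : g.1 x = g.1 (x - m) + m := by
    have := HZ_int g.2 m (x - m)
    rw [mul_one, sub_add_cancel] at this
    exact this
  have ey : g.1 y = g.1 (y - m) + m := by
    have := HZ_int g.2 m (y - m)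
    rw [mul_one, sub_add_cancel] at this
    exact this
  have := h (x - m) ⟨by linarith, by linarith⟩ (y - m) ⟨by linarith, by linarith⟩ (by
    rw [Real.dist_eq]
    have : x - m - (y - m) = x - y := by ring
    rw [this]
    exact hxy2)
  rw [Real.dist_eq] at this
  rw [ex, ey]
  have e : g.1 (x - m) + m - (g.1 (y - m) + m) = g.1 (x - m) - g.1 (y - m) := by ring
  rw [e]
  exact this

/-- the filter basis -/
@[instance_reducible]
def basis : GroupFilterBasis G where
  sets := {S | ∃ ε > 0, S = U ε}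
  nonempty := ⟨U 1, 1, one_pos, rfl⟩
  inter_sets := by
    rintro _ _ ⟨ε, hε, rfl⟩ ⟨δ, hδ, rfl⟩
    refine ⟨U (min ε δ), ⟨min ε δ, lt_min hε hδ, rfl⟩, ?_⟩
    intro g hg
    exact ⟨fun x => lt_of_lt_of_le (hg x) (min_le_left _ _),
      fun x => lt_of_lt_of_le (hg x) (min_le_right _ _)⟩
  one' := by
    rintro _ ⟨ε, hε, rfl⟩ x
    simpa using hε
  mul' := by
    rintro _ ⟨ε, hε, rfl⟩
    refine ⟨U (ε / 2), ⟨ε / 2, half_pos hε, rfl⟩, ?_⟩
    rintro _ ⟨g, hg, h, hh, rfl⟩ x
    have h1 := hg (h.1 x)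
    have h2 := hh x
    have : (g * h).1 x = g.1 (h.1 x) := rfl
    simp only
    rw [this]
    calc |g.1 (h.1 x) - x| = |(g.1 (h.1 x) - h.1 x) + (h.1 x - x)| := by ring_nf
      _ ≤ |g.1 (h.1 x) - h.1 x| + |h.1 x - x| := abs_add_le _ _
      _ < ε := by linarith
  inv' := by
    rintro _ ⟨ε, hε, rfl⟩
    refine ⟨U ε, ⟨ε, hε, rfl⟩, ?_⟩
    intro g hg x
    have h1 := hg (g.1⁻¹ x)
    rw [RelIso.apply_inv_self, abs_sub_comm] at h1
    exact h1
  conj' := by
    rintro g _ ⟨ε, hε, rfl⟩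
    obtain ⟨δ, hδ, h⟩ := unifCont g hε
    refine ⟨U δ, ⟨δ, hδ, rfl⟩, ?_⟩
    intro f hf x
    have h1 := h _ _ (hf (g.1⁻¹ x))
    rw [RelIso.apply_inv_self] at h1
    exact h1

instance : TopologicalSpace G := basis.topology

instance : IsTopologicalGroup G := basis.isTopologicalGroup

lemma U_mem_nhds {ε : ℝ} (hε : 0 < ε) : U ε ∈ 𝓝 (1 : G) :=
  basis.mem_nhds_one ⟨ε, hε, rfl⟩

lemma exists_U_subset {S : Set G} (hS : S ∈ 𝓝 (1 : G)) : ∃ ε > 0, U ε ⊆ S := by
  rw [basis.nhds_one_hasBasis.mem_iff] at hS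
  obtain ⟨_, ⟨ε, hε, rfl⟩, h⟩ := hS
  exact ⟨ε, hε, h⟩

/-- inclusion of periods -/
lemma HZ_le (k : ℕ) (hk : 0 < k) : HZ (1 / (k : ℝ)) ≤ HZ 1 := by
  intro f hf x
  have := HZ_int hf (k : ℤ) x
  have hk' : (k : ℝ) ≠ 0 := by exact_mod_cast hk.ne'
  push_cast at this
  rw [mul_one_div_cancel hk'] at this
  exact this

lemma disp_mul {f g : ℝ ≃o ℝ} {a b : ℝ} (hf : ∀ x, |f x - x| ≤ a) (hg : ∀ x, |g x - x| ≤ b) :
    ∀ x, |(f * g) x - x| ≤ a + b := by
  intro x
  rw [RelIso.mul_apply]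
  calc |f (g x) - x| = |(f (g x) - g x) + (g x - x)| := by ring_nf
    _ ≤ |f (g x) - g x| + |g x - x| := abs_add_le _ _
    _ ≤ a + b := add_le_add (hf _) (hg _)

lemma disp_inv {f : ℝ ≃o ℝ} {a : ℝ} (hf : ∀ x, |f x - x| ≤ a) :
    ∀ x, |f⁻¹ x - x| ≤ a := by
  intro x
  have := hf (f⁻¹ x)
  rw [RelIso.apply_inv_self, abs_sub_comm] at this
  exact this

/-- The group of increasing bijections of the line commuting with `x ↦ x + 1` does not embed in the
multiplicative semigroup of a topological ring. -/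
theorem no_embedding {R : Type u} [NonUnitalRing R] [TopologicalSpace R] [IsTopologicalRing R]
    (f : G →ₙ* R)
    (hf : Topology.IsEmbedding f) : False := by
  have h1 : U (1 / 2) ∈ 𝓝 (1 : G) := U_mem_nhds (by norm_num)
  rw [hf.isInducing.nhds_eq_comap] at h1
  obtain ⟨V', hV', hV'sub⟩ := Filter.mem_comap.1 h1
  -- `V0 = V' - e`
  have hV0 : (fun r : R => r + f 1) ⁻¹' V' ∈ 𝓝 (0 : R) := by
    have hc : Continuous (fun r : R => r + f 1) := by fun_prop
    apply hc.continuousAt.preimage_mem_nhds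
    simpa using hV'
  obtain ⟨Va, hVa, hVa'⟩ := exists_nhds_zero_half hV0
  obtain ⟨Vb, hVb, hVb'⟩ := exists_nhds_zero_half hVa
  obtain ⟨V1, hV1, hV1'⟩ := exists_nhds_zero_half hVb
  -- the triple product is continuous at `(e, 0, e)`
  have h3 : Continuous (fun p : R × R × R => p.1 * p.2.1 * p.2.2) := by fun_prop
  have h4 : (fun p : R × R × R => p.1 * p.2.1 * p.2.2) ⁻¹' V1 ∈ 𝓝 ((f 1, 0, f 1) : R × R × R) := by
    apply h3.continuousAt.preimage_mem_nhds
    simpa using hV1
  rw [mem_nhds_prod_iff] at h4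
  obtain ⟨E1, hE1, F, hF, hEF⟩ := h4
  rw [mem_nhds_prod_iff] at hF
  obtain ⟨V2, hV2, E2, hE2, hVE⟩ := hF
  have hprod : ∀ x ∈ E1, ∀ y ∈ V2, ∀ z ∈ E2, x * y * z ∈ V1 := by
    intro x hx y hy z hz
    have hyz : (y, z) ∈ F := hVE ⟨hy, hz⟩
    exact hEF (show (x, (y, z)) ∈ E1 ×ˢ F from ⟨hx, hyz⟩)
  -- small elements of `G`
  have h5 : f ⁻¹' (E1 ∩ E2) ∈ 𝓝 (1 : G) :=
    hf.continuous.continuousAt.preimage_mem_nhds (Filter.inter_mem hE1 hE2)
  obtain ⟨ε, hε, hUε⟩ := exists_U_subset h5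
  obtain ⟨k, hk⟩ := exists_nat_gt (8 / ε)
  have hk0 : (0 : ℝ) < k := lt_trans (by positivity) hk
  have hk0' : 0 < k := by exact_mod_cast hk0
  set θ : ℝ := 1 / (k : ℝ) with hθdef
  have hθ : 0 < θ := by positivity
  have h8 : 8 * θ < ε := by
    rw [div_lt_iff₀ hε] at hk
    rw [hθdef, mul_one_div, div_lt_iff₀ hk0]
    linarith
  have hle : HZ θ ≤ HZ 1 := HZ_le k hk0'
  -- the translation
  let b : G := ⟨T θ, T_mem 1 θ⟩
  have hbk : (b ^ k).1 = T 1 := by
    have : (b ^ k).1 = (T θ) ^ k := rfl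
    rw [this, T_pow, hθdef, mul_one_div_cancel hk0.ne']
  let z : R := ∑ j ∈ Finset.range k, f (b ^ j)
  have hzcomm : ∀ g : G, g.1 ∈ HZ θ → f g * z = z * f g := by
    intro g hg
    have hgb : Commute g b := by
      apply Subtype.ext
      ext x
      change g.1 (T θ x) = T θ (g.1 x)
      rw [T_apply, T_apply]
      exact hg x
    simp only [z, Finset.mul_sum, Finset.sum_mul]
    apply Finset.sum_congr rfl
    intro j _
    rw [← map_mul, ← map_mul, (hgb.pow_right j).eq]
  -- smallness after multiplication with `z`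
  have h6 : Continuous (fun g : G => z * (f g - f 1)) :=
    continuous_const.mul (hf.continuous.sub continuous_const)
  have h7 : (fun g : G => z * (f g - f 1)) ⁻¹' V2 ∈ 𝓝 (1 : G) := by
    apply h6.continuousAt.preimage_mem_nhds
    simpa using hV2
  obtain ⟨δ, hδ, hUδ⟩ := exists_U_subset h7
  -- key estimate
  have key : ∀ (X : ℝ ≃o ℝ) (hX : X ∈ HZ θ) (p : ℝ) (_ : X p = p) (d : G)
      (_ : ∀ x, |d.1 x - x| ≤ 7 * θ),
      z * f (⟨X, hle hX⟩ * d) - z * f d ∈ V1 := by
    intro X hX p hp d hd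
    obtain ⟨h, hh, hdisp, hsmall⟩ := contract hθ hX hp hδ
    let H : G := ⟨h, hle hh⟩
    let X' : G := ⟨X, hle hX⟩
    have hq : H * X' * H⁻¹ ∈ U δ := fun x => hsmall x
    have hHinv : f H⁻¹ ∈ E1 := by
      apply (hUε (?_ : H⁻¹ ∈ U ε)).1
      intro x
      calc |H⁻¹.1 x - x| ≤ θ := disp_inv hdisp x
        _ < ε := by linarith
    have hHd : f (H * d) ∈ E2 := by
      apply (hUε (?_ : H * d ∈ U ε)).2
      intro x
      calc |(H * d).1 x - x| ≤ θ + 7 * θ := disp_mul hdisp hd x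
        _ < ε := by linarith
    have hmem := hprod _ hHinv _ (hUδ hq) _ hHd
    have hinvmem : (H⁻¹).1 ∈ HZ θ := (HZ θ).inv_mem hh
    have e1 : f H⁻¹ * (z * (f (H * X' * H⁻¹) - f 1)) * f (H * d) =
        z * f (X' * d) - z * f d := by
      rw [← mul_assoc (f H⁻¹) z, hzcomm _ hinvmem, mul_assoc z, mul_assoc z, mul_sub, sub_mul,
        mul_sub]
      congr 1
      · rw [← map_mul, ← map_mul]
        congr 2
        group
      · rw [← map_mul, ← map_mul]
        congr 2
        group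
    rw [← e1]
    exact hmem
  -- the two basic elements
  let A : ℝ ≃o ℝ := Aθ θ hθ
  let C : ℝ ≃o ℝ := Cθ θ hθ
  have hA : A ∈ HZ θ := Aθ_mem θ hθ
  have hC : C ∈ HZ θ := Cθ_mem θ hθ
  have hAfix : A (θ / 2) = θ / 2 := Aθ_fix θ hθ
  have hCfix : C 0 = 0 := Cθ_fix θ hθ
  have dA : ∀ x, |A x - x| ≤ θ := fix_disp hθ hA hAfix
  have dC : ∀ x, |C x - x| ≤ θ := fix_disp hθ hC hCfix
  let a : G := ⟨A, hle hA⟩
  let c : G := ⟨C, hle hC⟩
  have keyA : ∀ d : G, (∀ x, |d.1 x - x| ≤ 7 * θ) → z * f (a * d) - z * f d ∈ V1 :=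
    fun d hd => key A hA _ hAfix d hd
  have keyC : ∀ d : G, (∀ x, |d.1 x - x| ≤ 7 * θ) → z * f (c * d) - z * f d ∈ V1 :=
    fun d hd => key C hC _ hCfix d hd
  have d0 : ∀ x, |(1 : G).1 x - x| ≤ 0 * θ := by
    intro x
    have : (1 : G).1 x = x := rfl
    rw [this]
    simp
  have stepC : ∀ (d : G) (n : ℝ), (∀ x, |d.1 x - x| ≤ n * θ) →
      ∀ x, |(c * d).1 x - x| ≤ (n + 1) * θ := by
    intro d n hd x
    calc |(c * d).1 x - x| ≤ θ + n * θ := disp_mul dC hd x
      _ = (n + 1) * θ := by ring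
  have stepA : ∀ (d : G) (n : ℝ), (∀ x, |d.1 x - x| ≤ n * θ) →
      ∀ x, |(a * d).1 x - x| ≤ (n + 1) * θ := by
    intro d n hd x
    calc |(a * d).1 x - x| ≤ θ + n * θ := disp_mul dA hd x
      _ = (n + 1) * θ := by ring
  have weak : ∀ (d : G) (n : ℝ), n ≤ 7 → (∀ x, |d.1 x - x| ≤ n * θ) →
      ∀ x, |d.1 x - x| ≤ 7 * θ := by
    intro d n hn hd x
    exact (hd x).trans (mul_le_mul_of_nonneg_right hn hθ.le)
  have d1 := stepC _ _ d0
  have d2 := stepA _ _ d1
  have d3 := stepC _ _ d2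
  have d4 := stepA _ _ d3
  have d5 := stepC _ _ d4
  have d6 := stepA _ _ d5
  have d7 := stepC _ _ d6
  have t1 := keyC _ (weak _ _ (by norm_num) d0)
  have t2 := keyA _ (weak _ _ (by norm_num) d1)
  have t3 := keyC _ (weak _ _ (by norm_num) d2)
  have t4 := keyA _ (weak _ _ (by norm_num) d3)
  have t5 := keyC _ (weak _ _ (by norm_num) d4)
  have t6 := keyA _ (weak _ _ (by norm_num) d5)
  have t7 := keyC _ (weak _ _ (by norm_num) d6)
  have t8 := keyA _ (weak _ _ (by norm_num) d7)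
  have hsum := hVa' _ (hVb' _ (hV1' _ t8 _ t7) _ (hV1' _ t6 _ t5)) _
    (hVb' _ (hV1' _ t4 _ t3) _ (hV1' _ t2 _ t1))
  -- the product of the eight elements is `b`
  have hb : a * (c * (a * (c * (a * (c * (a * (c * 1))))))) = b := by
    apply Subtype.ext
    change A * (C * (A * (C * (A * (C * (A * (C * 1))))))) = T θ
    have hAC : A * C = T (θ / 4) := AC_eq θ hθ
    rw [mul_one, hAC, ← mul_assoc A C, hAC, ← mul_assoc A C, hAC, ← mul_assoc A C, hAC,
      T_mul, T_mul, T_mul]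
    congr 1
    ring
  have hbsum : z * f b - z * f 1 = f (b ^ k) - f 1 := by
    simp only [z, Finset.sum_mul]
    rw [← Finset.sum_sub_distrib]
    have : ∀ j ∈ Finset.range k, f (b ^ j) * f b - f (b ^ j) * f 1 =
        f (b ^ (j + 1)) - f (b ^ j) := by
      intro j _
      rw [← map_mul, ← map_mul, mul_one, pow_succ]
    rw [Finset.sum_congr rfl this, Finset.sum_range_sub (fun j => f (b ^ j)), pow_zero]
  rw [hb] at hsum
  have hfin : f (b ^ k) ∈ V' := by
    have e : z * f b - z * f 1 + f 1 = f (b ^ k) := by rw [hbsum, sub_add_cancel]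
    rw [← e]
    rw [Set.mem_preimage] at hsum
    have e2 : ∀ (x1 x2 x3 x4 x5 x6 x7 x8 x9 y : R), x1 - x9 + y =
        x1 - x2 + (x2 - x3) + (x3 - x4 + (x4 - x5)) +
          (x5 - x6 + (x6 - x7) + (x7 - x8 + (x8 - x9))) + y := by
      intros
      abel
    rw [e2]
    exact hsum
  have hcontr := hV'sub hfin 0
  rw [hbk, T_apply] at hcontr
  norm_num at hcontr

lemma t2 : T2Space G := by
  rw [basis.t2Space_iff_sInter_subset rfl]
  intro g hg
  rw [Set.mem_singleton_iff]
  apply Subtype.ext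
  ext x
  change g.1 x = x
  by_contra hne
  have hpos : 0 < |g.1 x - x| := abs_pos.2 (sub_ne_zero.2 hne)
  have := hg (U |g.1 x - x|) ⟨_, hpos, rfl⟩ x
  exact lt_irrefl _ this

/-- There is a Hausdorff topological group `G` such that no injective multiplicative map from `G` to an
associative topological ring `R` (not assumed commutative, unital or Hausdorff, and in any universe)
is a homeomorphism onto its image. -/
theorem result :
    ∃ (G : Type) (_ : Group G) (_ : TopologicalSpace G), IsTopologicalGroup G ∧ T2Space G ∧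
      ∀ (R : Type u) [NonUnitalRing R] [TopologicalSpace R] [IsTopologicalRing R] (f : G → R),
        (∀ g h : G, f (g * h) = f g * f h) → ¬ Topology.IsEmbedding f := by
  refine ⟨G, inferInstance, inferInstance, inferInstance, t2, ?_⟩
  intro R _ _ _ f hmul hf
  exact no_embedding (R := R) ⟨f, hmul⟩ hf

end Pool.Agent.Results.MP_abd870_al.NoEmbedding
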